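import Pool.Agent.Helper8.OT.TransCore
import Pool.Agent.Helper49.OT.Mfd
import Pool.Agent.Helper49.OT.Lat1
import Pool.Agent.Helper77.OT.Lat2
import Pool.Agent.Helper59.OT.Num

/-!
# Transitivity of the diffeomorphism of the Oeljeklaus–Toma threefold
-/

set_option autoImplicit false

open scoped Manifold ContDiff Topology
open Set Filter

noncomputable section

namespace HolPH.OT

theorem transitive (U V : Set M) (hU : IsOpen U) (hV : IsOpen V) (hU' : U.Nonempty)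
    (hV' : V.Nonempty) : ∃ n : ℕ, 1 ≤ n ∧ (((F : M → M)^[n] '' U) ∩ V).Nonempty := by
  -- open preimages in `ℂ³`
  obtain ⟨p, hp⟩ := hU'
  obtain ⟨q, hq⟩ := hV'
  obtain ⟨x, rfl⟩ := pr_surjective p
  obtain ⟨z, rfl⟩ := pr_surjective q
  have hUo : IsOpen ((fun y : X => (y : C3)) '' (pr ⁻¹' U)) :=
    X.isOpen.isOpenMap_subtype_val _ (hU.preimage pr_continuous)
  have hVo : IsOpen ((fun y : X => (y : C3)) '' (pr ⁻¹' V)) :=
    X.isOpen.isOpenMap_subtype_val _ (hV.preimage pr_continuous)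
  obtain ⟨e1, he1, hb1⟩ := Metric.isOpen_iff.1 hUo x ⟨x, hp, rfl⟩
  obtain ⟨e2, he2, hb2⟩ := Metric.isOpen_iff.1 hVo z ⟨z, hq, rfl⟩
  obtain ⟨k, hk, n, a, ha, x', hx'1, -, hx'2⟩ := trans_core one_lt_U1 V1_lt_one V2_pos V2_lt_one
    V3_pos U3_pos lam_pos lam_lt_one lam_inv U1_al3 V1_zpow_ne Lat_cover
    (x := (x : C3)) (z := (z : C3)) x.2 z.2 (lt_min he1 he2)
  have hx'U : x' ∈ Metric.ball (x : C3) e1 := by
    rw [mem_ball_iff_norm]
    exact hx'1.trans_le (min_le_left _ _)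
  obtain ⟨y, hy, rfl⟩ := hb1 hx'U
  have hzV : ((v ^ (k : ℤ) : C3ˣ) : C3) * ((u ^ n : C3ˣ) : C3) * (y : C3) + a ∈
      Metric.ball (z : C3) e2 := by
    rw [mem_ball_iff_norm]
    exact hx'2.trans_le (min_le_right _ _)
  obtain ⟨y', hy', hyy'⟩ := hb2 hzV
  refine ⟨k, hk, pr y', ⟨pr y, hy, ?_⟩, hy'⟩
  rw [F_iterate, pr_eq]
  refine ⟨⟨n, ⟨a, ha⟩⟩, Subtype.ext ?_⟩
  rw [smul_coe, mulv_coe]
  simp only at hyy'
  rw [hyy']
  ring

end HolPH.OT
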