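import Mathlib

/-!
# Density of `{k a + n b : k ≥ K}` for `a / b` irrational
-/

set_option autoImplicit false

open Set Filter

namespace HolPH.OT

theorem exists_nat_int_near {a b : ℝ} (hb : 0 < b) (h : Irrational (a / b)) (c δ : ℝ)
    (hδ : 0 < δ) (K : ℕ) : ∃ k : ℕ, K ≤ k ∧ ∃ n : ℤ, |k * a + n * b - c| < δ := by
  have : Fact (0 < b) := ⟨hb⟩
  have h1 : DenseRange (· • (a : AddCircle b) : ℤ → AddCircle b) :=
    AddCircle.denseRange_zsmul_coe_iff.2 h
  have h2 : DenseRange (· • (a : AddCircle b) : ℕ → AddCircle b) :=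
    denseRange_zsmul_iff_nsmul.1 h1
  have hopen : IsOpen ((fun x : ℝ => (x : AddCircle b)) '' Metric.ball (c - K * a) δ) :=
    QuotientAddGroup.isOpenMap_coe _ Metric.isOpen_ball
  have hne : ((fun x : ℝ => (x : AddCircle b)) '' Metric.ball (c - K * a) δ).Nonempty :=
    ⟨_, _, Metric.mem_ball_self hδ, rfl⟩
  obtain ⟨k, hk⟩ := h2.exists_mem_open hopen hne
  obtain ⟨y, hy, hyk⟩ := hk
  have hyk' : ((y - k * a : ℝ) : AddCircle b) = 0 := by
    simp only at hyk
    rw [AddCircle.coe_sub, hyk, ← nsmul_eq_mul]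
    exact sub_self _
  obtain ⟨n, hn⟩ := AddCircle.coe_eq_zero_iff b |>.1 hyk'
  refine ⟨k + K, by omega, n, ?_⟩
  rw [Metric.mem_ball, Real.dist_eq] at hy
  have h3 : ((k + K : ℕ) : ℝ) * a + n * b - c = y - (c - K * a) := by
    rw [zsmul_eq_mul] at hn
    push_cast
    linarith
  rw [h3]
  exact hy

end HolPH.OT
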