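import Pool.Agent.Helper49.OT.Defs
import Pool.Agent.Helper8.OT.Dense

/-!
# Transitivity of the diffeomorphism of the Oeljeklaus–Toma threefold: the core estimate
-/

set_option autoImplicit false

open scoped Manifold ContDiff Topology
open Set Filter

noncomputable section

namespace HolPH.OT

/-- the norm of the first coordinate etc. of `v ^ k u ^ n` -/
theorem norm_zpow_snd_fst (w : C3ˣ) (n : ℤ) :
    ‖((w ^ n : C3ˣ) : C3).2.1‖ = ‖(w : C3).2.1‖ ^ n := by
  rw [zpow_snd_fst, norm_zpow]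

theorem norm_zpow_snd_snd (w : C3ˣ) (n : ℤ) :
    ‖((w ^ n : C3ˣ) : C3).2.2‖ = ‖(w : C3).2.2‖ ^ n := by
  rw [zpow_snd_snd, norm_zpow]

/-- A large `k` and an `n` with `V1 ^ k * U1 ^ n` close to a given positive number and
`V3 ^ k * U3 ^ n` large. -/
theorem exists_k_n (hU1 : 1 < U1) (hV3 : 0 < V3) (hU3 : 0 < U3)
    (hl0 : 0 < lam) (hl1 : lam < 1) (hlam : V1 ^ al3 * V3 = lam⁻¹) (hal : U1 ^ al3 * U3 = 1)
    (hirr : ∀ {m k : ℤ}, V1 ^ m = U1 ^ k → m = 0 ∧ k = 0)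
    {c ε : ℝ} (hc : 0 < c) (hε : 0 < ε) (R : ℝ) :
    ∃ k : ℕ, 1 ≤ k ∧ ∃ n : ℤ, |V1 ^ k * U1 ^ n - c| < ε ∧ R < V3 ^ k * U3 ^ n := by
  have hU0 := U1_pos
  have hV0 := V1_pos
  set a := Real.log V1 with ha
  set b := Real.log U1 with hb
  have hb0 : 0 < b := Real.log_pos hU1
  have hirr' : Irrational (a / b) := by
    rintro ⟨q, hq⟩
    have h1 : (q.den : ℝ) * a = q.num * b := by
      have h2 : (q : ℝ) * b = a := by rw [hq]; field_simp
      rw [← h2]
      have h3 : (q.den : ℝ) * q = q.num := by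
        have := Rat.den_mul_eq_num q
        exact_mod_cast this
      rw [← mul_assoc, h3]
    have h4 : V1 ^ (q.den : ℤ) = U1 ^ q.num := by
      apply Real.log_injOn_pos (Set.mem_Ioi.2 (zpow_pos hV0 _)) (Set.mem_Ioi.2 (zpow_pos hU0 _))
      rw [Real.log_zpow, Real.log_zpow]
      push_cast
      exact h1
    have h5 := (hirr h4).1
    have h6 := q.den_pos
    omega
  -- logarithms
  have hexp : ∀ (k : ℕ) (n : ℤ), V1 ^ k * U1 ^ n = Real.exp (k * a + n * b) := by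
    intro k n
    rw [Real.exp_add, ← Real.log_pow, ← Real.log_zpow, Real.exp_log (pow_pos hV0 _),
      Real.exp_log (zpow_pos hU0 _)]
  have hlogU3 : Real.log U3 = - (al3 * b) := by
    have h1 := congrArg Real.log hal
    rw [Real.log_mul (Real.rpow_pos_of_pos hU0 _).ne' hU3.ne', Real.log_rpow hU0,
      Real.log_one] at h1
    linarith
  have hlogV3 : Real.log V3 = - Real.log lam - al3 * a := by
    have h1 := congrArg Real.log hlam
    rw [Real.log_mul (Real.rpow_pos_of_pos hV0 _).ne' hV3.ne', Real.log_rpow hV0,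
      Real.log_inv] at h1
    linarith
  have hexp3 : ∀ (k : ℕ) (n : ℤ), V3 ^ k * U3 ^ n =
      Real.exp (k * (- Real.log lam) - al3 * (k * a + n * b)) := by
    intro k n
    have h1 : V3 ^ k * U3 ^ n = Real.exp (k * Real.log V3 + n * Real.log U3) := by
      rw [Real.exp_add, ← Real.log_pow, ← Real.log_zpow, Real.exp_log (pow_pos hV3 _),
        Real.exp_log (zpow_pos hU3 _)]
    rw [h1, hlogU3, hlogV3]
    congr 1
    ring
  have hL : 0 < - Real.log lam := by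
    have := Real.log_neg hl0 hl1
    linarith
  -- continuity of exp at log c
  obtain ⟨δ, hδ, hδc⟩ := Metric.continuous_iff.1 Real.continuous_exp (Real.log c) ε hε
  set δ' := min δ 1 with hδ'
  have hδ'0 : 0 < δ' := lt_min hδ one_pos
  -- choice of K
  set B := |al3| * (|Real.log c| + 1) with hB
  obtain ⟨K, hK⟩ := exists_nat_gt ((Real.log (|R| + 1) + B) / (- Real.log lam))
  obtain ⟨k, hk, n, hn⟩ := exists_nat_int_near hb0 hirr' (Real.log c) δ' hδ'0 (K + 1)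
  refine ⟨k, by omega, n, ?_, ?_⟩
  · rw [hexp]
    have h1 := hδc (k * a + n * b) (by
      rw [Real.dist_eq]
      exact hn.trans_le (min_le_left _ _))
    rw [Real.dist_eq, Real.exp_log hc] at h1
    exact h1
  · rw [hexp3]
    have h1 : |k * a + n * b| ≤ |Real.log c| + 1 := by
      have h2 : |k * a + n * b - Real.log c| ≤ 1 := hn.le.trans (min_le_right _ _)
      have h3 := abs_sub_abs_le_abs_sub (k * a + n * b) (Real.log c)
      linarith
    have h2 : al3 * (k * a + n * b) ≤ B := by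
      calc al3 * (k * a + n * b) ≤ |al3 * (k * a + n * b)| := le_abs_self _
        _ = |al3| * |k * a + n * b| := abs_mul _ _
        _ ≤ B := mul_le_mul_of_nonneg_left h1 (abs_nonneg _)
    have h3 : Real.log (|R| + 1) + B < k * (- Real.log lam) := by
      have h4 : (K : ℝ) < k := by exact_mod_cast (by omega : K < k)
      have h5 := hK.trans h4
      rwa [div_lt_iff₀ hL] at h5
    have h6 : Real.log (|R| + 1) < k * (- Real.log lam) - al3 * (k * a + n * b) := by linarith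
    calc R ≤ |R| := le_abs_self R
      _ < |R| + 1 := by linarith
      _ = Real.exp (Real.log (|R| + 1)) := (Real.exp_log (by positivity)).symm
      _ < _ := Real.exp_lt_exp.2 h6

/-- The core estimate upstairs. -/
theorem trans_core (hU1 : 1 < U1) (hV1 : V1 < 1) (hV2 : 0 < V2) (hV2' : V2 < 1) (hV3 : 0 < V3)
    (hU3 : 0 < U3)
    (hl0 : 0 < lam) (hl1 : lam < 1) (hlam : V1 ^ al3 * V3 = lam⁻¹) (hal : U1 ^ al3 * U3 = 1)
    (hirr : ∀ {m k : ℤ}, V1 ^ m = U1 ^ k → m = 0 ∧ k = 0)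
    (hcov : ∃ D : ℝ, 0 < D ∧ ∀ t : C3, t.1.im = 0 → ∃ a ∈ Lat, ‖t - a‖ ≤ D)
    {x z : C3} (hx : 0 < x.1.im) (hz : 0 < z.1.im) {ε : ℝ} (hε : 0 < ε) :
    ∃ k : ℕ, 1 ≤ k ∧ ∃ (n : ℤ) (a : C3) (_ : a ∈ Lat) (x' : C3), ‖x' - x‖ < ε ∧ x'.1 = x.1 ∧
      ‖((v ^ (k : ℤ) : C3ˣ) : C3) * ((u ^ n : C3ˣ) : C3) * x' + a - z‖ < ε := by
  obtain ⟨D, hD, hcov⟩ := hcov
  -- choice of m
  have hV0 := V1_pos
  obtain ⟨m, hm1, hm2⟩ : ∃ m : ℕ, V1 ^ m * D < ε / 2 ∧ V2 ^ m * D < ε / 2 := by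
    have h1 : Tendsto (fun m : ℕ => V1 ^ m * D) atTop (𝓝 (0 * D)) :=
      (tendsto_pow_atTop_nhds_zero_of_lt_one hV0.le hV1).mul_const D
    have h2 : Tendsto (fun m : ℕ => V2 ^ m * D) atTop (𝓝 (0 * D)) :=
      (tendsto_pow_atTop_nhds_zero_of_lt_one hV2.le hV2').mul_const D
    rw [zero_mul] at h1 h2
    have h3 := h1.eventually_lt_const (half_pos hε)
    have h4 := h2.eventually_lt_const (half_pos hε)
    exact (h3.and h4).exists
  obtain ⟨k, hk1, n, hkn1, hkn3⟩ := exists_k_n hU1 hV3 hU3 hl0 hl1 hlam hal hirr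
    (c := z.1.im / x.1.im) (ε := ε / 2 / x.1.im) (div_pos hz hx) (by positivity)
    (V3 ^ m * D / (ε / 2))
  have hheight : |V1 ^ k * U1 ^ n * x.1.im - z.1.im| < ε / 2 := by
    have h1 : V1 ^ k * U1 ^ n * x.1.im - z.1.im =
        (V1 ^ k * U1 ^ n - z.1.im / x.1.im) * x.1.im := by
      field_simp
    rw [h1, abs_mul, abs_of_pos hx]
    calc |V1 ^ k * U1 ^ n - z.1.im / x.1.im| * x.1.im < ε / 2 / x.1.im * x.1.im :=
          mul_lt_mul_of_pos_right hkn1 hx
      _ = ε / 2 := by field_simp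
  set w : C3 := ((v ^ (k : ℤ) : C3ˣ) : C3) * ((u ^ n : C3ˣ) : C3) with hw
  have hw1 : w.1 = ((V1 ^ k * U1 ^ n : ℝ) : ℂ) := by
    rw [hw, Prod.fst_mul, v_zpow_fst, u_zpow_fst, zpow_natCast]
    push_cast
    rfl
  have hw3 : ‖w.2.2‖ = V3 ^ k * U3 ^ n := by
    rw [hw, Prod.snd_mul, Prod.snd_mul, norm_mul, norm_zpow_snd_snd, norm_zpow_snd_snd,
      zpow_natCast]
    rfl
  have hw3pos : 0 < ‖w.2.2‖ := by
    rw [hw3]
    exact mul_pos (pow_pos hV3 _) (zpow_pos hU3 _)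
  -- the target translation, first coordinate real
  set t : C3 := (((z.1 - w.1 * x.1).re : ℂ), z.2.1 - w.2.1 * x.2.1, z.2.2 - w.2.2 * x.2.2) with ht
  set vm : C3 := ((v ^ (m : ℤ) : C3ˣ) : C3) with hvm
  set vmi : C3 := ((v ^ (-(m : ℤ)) : C3ˣ) : C3) with hvmi
  have hvv : vm * vmi = 1 := by
    rw [hvm, hvmi, ← Units.val_mul, ← zpow_add, add_neg_cancel, zpow_zero, Units.val_one]
  have him : (vmi * t).1.im = 0 := by
    rw [Prod.fst_mul, hvmi, v_zpow_fst, ht]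
    simp only [Complex.im_ofReal_mul, Complex.ofReal_im, mul_zero]
  obtain ⟨a', ha', ha'D⟩ := hcov (vmi * t) him
  set a : C3 := vm * a' with hadef
  have haL : a ∈ Lat := v_zpow_mul_mem m ha'
  have hta : t - a = vm * (vmi * t - a') := by
    rw [mul_sub, ← mul_assoc, hvv, one_mul]
  have hd1 : ‖(vmi * t - a').1‖ ≤ D := (norm_fst_le _).trans ha'D
  have hd2 : ‖(vmi * t - a').2.1‖ ≤ D := ((norm_fst_le _).trans (norm_snd_le _)).trans ha'D
  have hd3 : ‖(vmi * t - a').2.2‖ ≤ D := ((norm_snd_le _).trans (norm_snd_le _)).trans ha'D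
  have hta1 : ‖(t - a).1‖ < ε / 2 := by
    rw [hta, Prod.fst_mul, norm_mul, hvm, v_zpow_fst, zpow_natCast, Complex.norm_real,
      Real.norm_of_nonneg (pow_nonneg hV0.le _)]
    exact (mul_le_mul_of_nonneg_left hd1 (pow_nonneg hV0.le _)).trans_lt hm1
  have hta2 : ‖(t - a).2.1‖ < ε / 2 := by
    rw [hta, Prod.snd_mul, Prod.fst_mul, norm_mul, hvm, norm_zpow_snd_fst, zpow_natCast]
    exact (mul_le_mul_of_nonneg_left hd2 (pow_nonneg (norm_nonneg _) _)).trans_lt hm2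
  have hta3 : ‖(t - a).2.2‖ ≤ V3 ^ m * D := by
    rw [hta, Prod.snd_mul, Prod.snd_mul, norm_mul, hvm, norm_zpow_snd_snd, zpow_natCast]
    exact mul_le_mul_of_nonneg_left hd3 (pow_nonneg (norm_nonneg _) _)
  -- the point x'
  set s : ℂ := (t - a).2.2 / w.2.2 with hs
  have hs_norm : ‖s‖ < ε / 2 := by
    rw [hs, norm_div, div_lt_iff₀ hw3pos]
    refine hta3.trans_lt ?_
    rw [hw3]
    rw [div_lt_iff₀ (half_pos hε)] at hkn3
    linarith
  have hws : w.2.2 * s = (t - a).2.2 := by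
    rw [hs]
    exact mul_div_cancel₀ _ (norm_pos_iff.1 hw3pos)
  refine ⟨k, hk1, n, a, haL, (x.1, x.2.1, x.2.2 + s), ?_, rfl, ?_⟩
  · have h1 : ((x.1, x.2.1, x.2.2 + s) : C3) - x = (0, 0, s) := by
      refine Prod.ext ?_ (Prod.ext ?_ ?_) <;> simp
    rw [h1, Prod.norm_def, Prod.norm_def]
    simp only [norm_zero]
    rw [max_eq_right (norm_nonneg s), max_eq_right (norm_nonneg s)]
    linarith
  · have hfst : (w * ((x.1, x.2.1, x.2.2 + s) : C3) + a - z).1 =
        -((t - a).1) + ((V1 ^ k * U1 ^ n * x.1.im - z.1.im : ℝ) : ℂ) * Complex.I := by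
      have h1 : (t - a).1 = ((z.1 - w.1 * x.1).re : ℂ) - a.1 := rfl
      have h2 : (w * ((x.1, x.2.1, x.2.2 + s) : C3) + a - z).1 = w.1 * x.1 + a.1 - z.1 := rfl
      rw [h1, h2]
      have h3 : ((z.1 - w.1 * x.1).re : ℂ) = z.1 - w.1 * x.1 - ((z.1 - w.1 * x.1).im : ℂ) *
          Complex.I := by
        conv_rhs => rw [← Complex.re_add_im (z.1 - w.1 * x.1)]
        simp
      have h4 : (z.1 - w.1 * x.1).im = -(V1 ^ k * U1 ^ n * x.1.im - z.1.im) := by
        rw [Complex.sub_im, hw1, Complex.im_ofReal_mul]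
        ring
      rw [h3, h4]
      push_cast
      ring
    have hsnd : (w * ((x.1, x.2.1, x.2.2 + s) : C3) + a - z).2.1 = -((t - a).2.1) := by
      have h1 : (t - a).2.1 = z.2.1 - w.2.1 * x.2.1 - a.2.1 := rfl
      have h2 : (w * ((x.1, x.2.1, x.2.2 + s) : C3) + a - z).2.1 =
        w.2.1 * x.2.1 + a.2.1 - z.2.1 := rfl
      rw [h1, h2]
      ring
    have hthd : (w * ((x.1, x.2.1, x.2.2 + s) : C3) + a - z).2.2 = 0 := by
      have h1 : (t - a).2.2 = z.2.2 - w.2.2 * x.2.2 - a.2.2 := rfl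
      have h2 : (w * ((x.1, x.2.1, x.2.2 + s) : C3) + a - z).2.2 =
        w.2.2 * (x.2.2 + s) + a.2.2 - z.2.2 := rfl
      rw [h2, mul_add, hws, h1]
      ring
    rw [Prod.norm_def, Prod.norm_def, hfst, hsnd, hthd, norm_neg, norm_zero]
    refine max_lt ?_ (max_lt (by linarith) hε)
    calc ‖-((t - a).1) + ((V1 ^ k * U1 ^ n * x.1.im - z.1.im : ℝ) : ℂ) * Complex.I‖
        ≤ ‖-((t - a).1)‖ + ‖((V1 ^ k * U1 ^ n * x.1.im - z.1.im : ℝ) : ℂ) * Complex.I‖ :=
          norm_add_le _ _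
      _ < ε / 2 + ε / 2 := by
          rw [norm_neg, norm_mul, Complex.norm_I, mul_one, Complex.norm_real, Real.norm_eq_abs]
          exact add_lt_add hta1 hheight
      _ = ε := by ring

end HolPH.OT
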